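import Pool.Agent.Helper7.AF.RigidDefs
import Pool.Agent.Helper8.Line

/-!
MODULE M1b: transport of an algebraic relation by an automorphism of `ℂ`.
-/

open Filter Topology MvPolynomial

namespace Pool.Agent.Helper38.AF

open Pool.Agent.GPC Pool.Agent.GPC.AbVar Pool.Agent.Helper7.AF

/-! ### derivations and curves -/

lemma hasDerivAt_eval {σ : Type*} {F : ℂ → σ → ℂ} {D : σ → MvPolynomial σ ℂ} {t : ℂ}
    (h : ∀ s, HasDerivAt (fun t => F t s) (eval (F t) (D s)) t) (S : MvPolynomial σ ℂ) :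
    HasDerivAt (fun t => eval (F t) S) (eval (F t) (mkDerivation ℂ D S)) t := by
  induction S using MvPolynomial.induction_on with
  | C a =>
    simpa using hasDerivAt_const t a
  | add p q hp hq =>
    simp only [map_add]
    exact hp.add hq
  | mul_X p s hp =>
    have := hp.mul (h s)
    simp only [Derivation.leibniz, map_add, mkDerivation_X, smul_eq_mul, map_mul, eval_X]
    refine this.congr_deriv ?_
    ring

lemma map_mkDerivation {σ : Type*} (τ : ℂ →+* ℂ) (D : σ → MvPolynomial σ ℂ)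
    (S : MvPolynomial σ ℂ) :
    MvPolynomial.map τ (mkDerivation ℂ D S) =
      mkDerivation ℂ (fun s => MvPolynomial.map τ (D s)) (MvPolynomial.map τ S) := by
  induction S using MvPolynomial.induction_on with
  | C a =>
    simp
  | add p q hp hq =>
    simp [hp, hq]
  | mul_X p s hp =>
    simp [Derivation.leibniz, hp]

lemma map_iterate_mkDerivation {σ : Type*} (τ : ℂ →+* ℂ) (D : σ → MvPolynomial σ ℂ)
    (S : MvPolynomial σ ℂ) (k : ℕ) :
    MvPolynomial.map τ ((mkDerivation ℂ D)^[k] S) =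
      (mkDerivation ℂ (fun s => MvPolynomial.map τ (D s)))^[k] (MvPolynomial.map τ S) := by
  induction k with
  | zero => rfl
  | succ k ih =>
    rw [Function.iterate_succ_apply', Function.iterate_succ_apply', map_mkDerivation, ih]

/-- if the curve satisfies the system near `0` then the iterated derivatives of `eval (F t) S` -/
lemma iteratedDeriv_eval {σ : Type*} {F : ℂ → σ → ℂ} {D : σ → MvPolynomial σ ℂ}
    (h : ∀ᶠ t in 𝓝 (0 : ℂ), ∀ s, HasDerivAt (fun t => F t s) (eval (F t) (D s)) t)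
    (S : MvPolynomial σ ℂ) (k : ℕ) :
    iteratedDeriv k (fun t => eval (F t) S) =ᶠ[𝓝 0]
      fun t => eval (F t) ((mkDerivation ℂ D)^[k] S) := by
  induction k with
  | zero => simp
  | succ k ih =>
    rw [iteratedDeriv_succ]
    refine ih.deriv.trans ?_
    filter_upwards [h] with t ht
    rw [Function.iterate_succ_apply']
    exact (hasDerivAt_eval ht _).deriv

lemma iterate_zero {σ : Type*} {F : ℂ → σ → ℂ} {D : σ → MvPolynomial σ ℂ}
    (h : ∀ᶠ t in 𝓝 (0 : ℂ), ∀ s, HasDerivAt (fun t => F t s) (eval (F t) (D s)) t)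
    (S : MvPolynomial σ ℂ) (hS : ∀ᶠ t in 𝓝 (0 : ℂ), eval (F t) S = 0) (k : ℕ) :
    eval (F 0) ((mkDerivation ℂ D)^[k] S) = 0 := by
  have h1 : ∀ᶠ t in 𝓝 (0 : ℂ), eval (F t) ((mkDerivation ℂ D)^[k] S) = 0 := by
    induction k with
    | zero => simpa using hS
    | succ k ih =>
      have h2 : (fun t => eval (F t) ((mkDerivation ℂ D)^[k] S)) =ᶠ[𝓝 0] fun _ => 0 := ih
      filter_upwards [h2.deriv, h] with t ht h3
      rw [Function.iterate_succ_apply', ← (hasDerivAt_eval h3 _).deriv, ht]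
      simp
  exact h1.self_of_nhds

/-- a function analytic on a ball, all of whose derivatives at the centre vanish, is zero -/
lemma eq_zero_of_iteratedDeriv {f : ℂ → ℂ} {r : ℝ} (hr : 0 < r)
    (hf : AnalyticOnNhd ℂ f (Metric.ball 0 r)) (h : ∀ k, iteratedDeriv k f 0 = 0) :
    ∀ t ∈ Metric.ball (0 : ℂ) r, f t = 0 := by
  have h0 : (0 : ℂ) ∈ Metric.ball (0 : ℂ) r := Metric.mem_ball_self hr
  have h1 := (hf 0 h0).hasFPowerSeriesAt
  have h2 : ∀ᶠ z in 𝓝 (0 : ℂ), f z = 0 := by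
    have h3 : FormalMultilinearSeries.ofScalars ℂ
        (fun n => iteratedDeriv n f 0 / (n.factorial : ℂ)) = 0 := by
      ext n
      simp [h]
    rw [h3] at h1
    exact h1.eventually_eq_zero
  intro t ht
  exact hf.eqOn_zero_of_preconnected_of_eventuallyEq_zero
    (convex_ball (0 : ℂ) r).isPreconnected h0 h2 ht

/-- transport for curves -/
lemma transport_curve {σ : Type*} {F F' : ℂ → σ → ℂ} {D : σ → MvPolynomial σ ℂ} (τ : ℂ →+* ℂ)
    (h : ∀ᶠ t in 𝓝 (0 : ℂ), ∀ s, HasDerivAt (fun t => F t s) (eval (F t) (D s)) t)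
    (S : MvPolynomial σ ℂ) (hS : ∀ᶠ t in 𝓝 (0 : ℂ), eval (F t) S = 0)
    {r : ℝ} (hr : 0 < r)
    (h' : ∀ t ∈ Metric.ball (0 : ℂ) r, ∀ s,
      HasDerivAt (fun t => F' t s) (eval (F' t) (MvPolynomial.map τ (D s))) t)
    (h0 : ∀ s, F' 0 s = τ (F 0 s)) :
    ∀ t ∈ Metric.ball (0 : ℂ) r, eval (F' t) (MvPolynomial.map τ S) = 0 := by
  have hd : ∀ t ∈ Metric.ball (0 : ℂ) r,
      HasDerivAt (fun t => eval (F' t) (MvPolynomial.map τ S))
        (eval (F' t) (mkDerivation ℂ (fun s => MvPolynomial.map τ (D s))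
          (MvPolynomial.map τ S))) t := fun t ht => hasDerivAt_eval (h' t ht) _
  have ha : AnalyticOnNhd ℂ (fun t => eval (F' t) (MvPolynomial.map τ S)) (Metric.ball 0 r) := by
    refine DifferentiableOn.analyticOnNhd ?_ Metric.isOpen_ball
    intro t ht
    exact (hd t ht).differentiableAt.differentiableWithinAt
  refine eq_zero_of_iteratedDeriv hr ha fun k => ?_
  have hev : ∀ᶠ t in 𝓝 (0 : ℂ), ∀ s,
      HasDerivAt (fun t => F' t s) (eval (F' t) (MvPolynomial.map τ (D s))) t := by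
    filter_upwards [Metric.ball_mem_nhds (0 : ℂ) hr] with t ht using h' t ht
  rw [(iteratedDeriv_eval hev (MvPolynomial.map τ S) k).self_of_nhds,
    ← map_iterate_mkDerivation]
  have h3 : F' 0 = fun s => τ (F 0 s) := funext h0
  beta_reduce
  rw [h3]
  have h4 : eval (fun s => τ (F 0 s)) (MvPolynomial.map τ ((mkDerivation ℂ D)^[k] S)) =
      τ (eval (F 0) ((mkDerivation ℂ D)^[k] S)) := by
    rw [eval_map]
    exact (eval₂_comp_left τ (RingHom.id ℂ) (F 0) _).symm
  rw [h4, iterate_zero h S hS k, map_zero]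

/-! ### the curves in abelian varieties -/

variable (A : AbVar)

lemma algebraic_fix {τ : ℂ ≃+* ℂ} (hτ : ∀ x, IsAlgebraic ℚ x → τ x = x) {n : ℕ}
    {Q : MvPolynomial (Fin (n + 1)) ℂ} (hQ : IsAlgQuadratic Q) :
    MvPolynomial.map (τ : ℂ →+* ℂ) Q = Q := by
  ext m
  rw [coeff_map]
  exact hτ _ (hQ.2 m)

lemma eval_quad {n : ℕ} {Q : MvPolynomial (Fin (n + 1)) ℂ} (hQ : IsAlgQuadratic Q)
    (θ : Fin (n + 1) → ℂ) (c : ℂ) :
    eval (fun k => θ k / c) Q = eval θ Q / c ^ 2 := by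
  have h1 : (fun k => θ k / c) = fun k => (1 / c) * θ k := by
    funext k; ring
  rw [h1, eval_smul_of_isHomogeneous hQ.1]
  ring

/-- the wronskian polynomials -/
noncomputable def W (i j : Fin (A.N + 1)) (a : Fin A.g) : MvPolynomial (Fin (A.N + 1)) ℂ :=
  Classical.choose (A.wronskian a i j)

lemma W_spec (i j : Fin (A.N + 1)) (a : Fin A.g) : IsAlgQuadratic (W A i j a) ∧
    ∀ z, A.θ i z * pd a (A.θ j) z - A.θ j z * pd a (A.θ i) z =
      MvPolynomial.eval (fun k => A.θ k z) (W A i j a) :=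
  Classical.choose_spec (A.wronskian a i j)

/-- the polynomials of the second logarithmic derivatives -/
noncomputable def W2 (i : Fin (A.N + 1)) (a b : Fin A.g) : MvPolynomial (Fin (A.N + 1)) ℂ :=
  Classical.choose (A.second a b i)

lemma W2_spec (i : Fin (A.N + 1)) (a b : Fin A.g) : IsAlgQuadratic (W2 A i a b) ∧
    ∀ z, A.θ i z * pd a (pd b (A.θ i)) z - pd a (A.θ i) z * pd b (A.θ i) z =
      MvPolynomial.eval (fun k => A.θ k z) (W2 A i a b) :=
  Classical.choose_spec (A.second a b i)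

lemma hasDerivAt_x (i j : Fin (A.N + 1)) (v : Fin A.g → ℂ) {t : ℂ} (h : A.θ i (t • v) ≠ 0) :
    HasDerivAt (fun t : ℂ => A.θ j (t • v) / A.θ i (t • v))
      (∑ a, v a * eval (fun k => A.θ k (t • v) / A.θ i (t • v)) (W A i j a)) t := by
  have h1 := (hasDerivAt_line (A.entire j) v t).div (hasDerivAt_line (A.entire i) v t) h
  refine h1.congr_deriv ?_
  have h2 : ∀ a, eval (fun k => A.θ k (t • v) / A.θ i (t • v)) (W A i j a) =
      (A.θ i (t • v) * pd a (A.θ j) (t • v) - A.θ j (t • v) * pd a (A.θ i) (t • v)) /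
        A.θ i (t • v) ^ 2 := by
    intro a
    rw [eval_quad (W_spec A i j a).1, (W_spec A i j a).2]
  simp only [h2]
  rw [Finset.sum_mul, Finset.mul_sum, ← Finset.sum_sub_distrib, Finset.sum_div]
  refine Finset.sum_congr rfl fun a _ => ?_
  ring

lemma hasDerivAt_zeta (i : Fin (A.N + 1)) (b : Fin A.g) (c : ℂ) (v : Fin A.g → ℂ) {t : ℂ}
    (h : A.θ i (t • v) ≠ 0) :
    HasDerivAt (fun t : ℂ => pd b (A.θ i) (t • v) / A.θ i (t • v) - c)
      (∑ a, v a * eval (fun k => A.θ k (t • v) / A.θ i (t • v)) (W2 A i a b)) t := by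
  have h1 := ((hasDerivAt_line (analytic_pd (A.entire i) b) v t).div
    (hasDerivAt_line (A.entire i) v t) h).sub_const c
  refine h1.congr_deriv ?_
  have h2 : ∀ a, eval (fun k => A.θ k (t • v) / A.θ i (t • v)) (W2 A i a b) =
      (A.θ i (t • v) * pd a (pd b (A.θ i)) (t • v) - pd a (A.θ i) (t • v) * pd b (A.θ i) (t • v)) /
        A.θ i (t • v) ^ 2 := by
    intro a
    rw [eval_quad (W2_spec A i a b).1, (W2_spec A i a b).2]
  simp only [h2]
  rw [Finset.sum_mul, Finset.mul_sum, ← Finset.sum_sub_distrib, Finset.sum_div]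
  refine Finset.sum_congr rfl fun a _ => ?_
  ring

variable (B : AbVar)

/-- the differential system on the line with direction `v` -/
noncomputable def DD (i0 : Fin (A.N + 1)) (j0 : Fin (B.N + 1))
    (Φ : Matrix (Fin B.g) (Fin A.g) ℂ) (v : Fin A.g → ℂ) : VV A B → MvPolynomial (VV A B) ℂ
  | .inl (.inl i) => ∑ a, C (v a) * rename (fun k => .inl (.inl k)) (W A i0 i a)
  | .inl (.inr j) => ∑ a, C (Φ.mulVec v a) * rename (fun k => .inl (.inr k)) (W B j0 j a)
  | .inr (.inl (.inl b)) => ∑ a, C (v a) * rename (fun k => .inl (.inl k)) (W2 A i0 a b)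
  | .inr (.inl (.inr b)) =>
      ∑ a, C (Φ.mulVec v a) * rename (fun k => .inl (.inr k)) (W2 B j0 a b)
  | .inr (.inr b) => C (v b)

lemma map_DD (i0 : Fin (A.N + 1)) (j0 : Fin (B.N + 1))
    (Φ : Matrix (Fin B.g) (Fin A.g) ℂ) (v : Fin A.g → ℂ) {τ : ℂ ≃+* ℂ}
    (hτ : ∀ x, IsAlgebraic ℚ x → τ x = x) (s : VV A B) :
    MvPolynomial.map (τ : ℂ →+* ℂ) (DD A B i0 j0 Φ v s) =
      DD A B i0 j0 (Φ.map τ) (fun a => τ (v a)) s := by
  have hm : ∀ a, τ (Φ.mulVec v a) = (Φ.map τ).mulVec (fun a => τ (v a)) a := by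
    intro a
    simp [Matrix.mulVec, dotProduct, map_sum, map_mul]
  rcases s with (i | j) | ((b | b) | b)
  · simp only [DD, map_sum, map_mul, map_C, map_rename, algebraic_fix hτ (W_spec A _ _ _).1]
    rfl
  · simp only [DD, map_sum, map_mul, map_C, map_rename, algebraic_fix hτ (W_spec B _ _ _).1,
      ← hm]
    rfl
  · simp only [DD, map_sum, map_mul, map_C, map_rename, algebraic_fix hτ (W2_spec A _ _ _).1]
    rfl
  · simp only [DD, map_sum, map_mul, map_C, map_rename, algebraic_fix hτ (W2_spec B _ _ _).1,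
      ← hm]
    rfl
  · simp only [DD, map_C]
    rfl

lemma hasDerivAt_sysF (i0 : Fin (A.N + 1)) (j0 : Fin (B.N + 1))
    (Φ : Matrix (Fin B.g) (Fin A.g) ℂ) (v : Fin A.g → ℂ) {t : ℂ}
    (hi : A.θ i0 (t • v) ≠ 0) (hj : B.θ j0 (t • Φ.mulVec v) ≠ 0) (s : VV A B) :
    HasDerivAt (fun t : ℂ => sysF A B i0 j0 Φ (t • v) s)
      (eval (sysF A B i0 j0 Φ (t • v)) (DD A B i0 j0 Φ v s)) t := by
  rcases s with (i | j) | ((b | b) | b)
  · simp only [DD, sysF, map_sum, map_mul, eval_C, eval_rename]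
    exact hasDerivAt_x A i0 i v hi
  · simp only [DD, sysF, map_sum, map_mul, eval_C, eval_rename, Matrix.mulVec_smul]
    have := hasDerivAt_x B j0 j (Φ.mulVec v) hj
    refine this.congr_deriv ?_
    refine Finset.sum_congr rfl fun a _ => ?_
    congr 3
    funext k
    simp only [Function.comp_apply, sysF, Matrix.mulVec_smul]
  · simp only [DD, sysF, map_sum, map_mul, eval_C, eval_rename]
    exact hasDerivAt_zeta A i0 b _ v hi
  · simp only [DD, sysF, map_sum, map_mul, eval_C, eval_rename, Matrix.mulVec_smul]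
    have := hasDerivAt_zeta B j0 b (pd b (B.θ j0) 0 / B.θ j0 0) (Φ.mulVec v) hj
    refine this.congr_deriv ?_
    refine Finset.sum_congr rfl fun a _ => ?_
    congr 3
    funext k
    simp only [Function.comp_apply, sysF, Matrix.mulVec_smul]
  · simp only [DD, sysF, eval_C]
    simpa using (hasDerivAt_id t).mul_const (v b)

/-- M1b (transport by an automorphism of `ℂ` which fixes the algebraic numbers). -/
theorem transport (A B : AbVar) (i0 : Fin (A.N + 1)) (j0 : Fin (B.N + 1)) (hi : A.θ i0 0 ≠ 0)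
    (hj : B.θ j0 0 ≠ 0) (Φ : Matrix (Fin B.g) (Fin A.g) ℂ) (τ : ℂ ≃+* ℂ)
    (hτ : ∀ x, IsAlgebraic ℚ x → τ x = x) (S : MvPolynomial (VV A B) ℂ)
    (hS : ∀ᶠ z in 𝓝 0, MvPolynomial.eval (sysF A B i0 j0 Φ z) S = 0) :
    ∀ᶠ z in 𝓝 0, MvPolynomial.eval (sysF A B i0 j0 (Φ.map τ) z)
      (MvPolynomial.map (τ : ℂ →+* ℂ) S) = 0 := by
  have hA : ∀ᶠ z in 𝓝 (0 : Fin A.g → ℂ), A.θ i0 z ≠ 0 :=
    (A.entire i0 0 (Set.mem_univ _)).continuousAt.eventually_ne hi
  have hBc : ∀ Ψ : Matrix (Fin B.g) (Fin A.g) ℂ,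
      ∀ᶠ z in 𝓝 (0 : Fin A.g → ℂ), B.θ j0 (Ψ.mulVec z) ≠ 0 := by
    intro Ψ
    have hB : ∀ᶠ z in 𝓝 (0 : Fin B.g → ℂ), B.θ j0 z ≠ 0 :=
      (B.entire j0 0 (Set.mem_univ _)).continuousAt.eventually_ne hj
    have hc : Tendsto (fun z : Fin A.g → ℂ => Ψ.mulVec z) (𝓝 0) (𝓝 0) := by
      have : Continuous fun z : Fin A.g → ℂ => Ψ.mulVec z :=
        Continuous.matrix_mulVec continuous_const continuous_id
      simpa using this.tendsto 0
    exact hc.eventually hB
  obtain ⟨r, hr, hball⟩ := Metric.eventually_nhds_iff_ball.1 (hA.and (hBc (Φ.map τ)))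
  rw [Metric.eventually_nhds_iff_ball]
  refine ⟨r, hr, fun z hz => ?_⟩
  have hz' : ‖z‖ < r := by simpa using hz
  -- the radius of the disc of parameters
  obtain ⟨R, hR1, hRr⟩ : ∃ R : ℝ, 1 < R ∧ R * ‖z‖ < r := by
    rcases eq_or_ne ‖z‖ 0 with h0 | h0
    · exact ⟨2, by norm_num, by rw [h0]; simpa using hr⟩
    · have hpos : 0 < ‖z‖ := lt_of_le_of_ne (norm_nonneg _) (Ne.symm h0)
      refine ⟨(1 + r / ‖z‖) / 2, ?_, ?_⟩
      · have : 1 < r / ‖z‖ := (one_lt_div hpos).2 hz'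
        linarith
      · have : (1 + r / ‖z‖) / 2 * ‖z‖ = (‖z‖ + r) / 2 := by
          field_simp
        rw [this]
        linarith
  have hline : ∀ (w : Fin A.g → ℂ), Tendsto (fun t : ℂ => t • w) (𝓝 0) (𝓝 0) := by
    intro w
    have : Continuous fun t : ℂ => t • w := continuous_id.smul continuous_const
    simpa using this.tendsto 0
  have key := transport_curve (τ : ℂ →+* ℂ)
    (F := fun t => sysF A B i0 j0 Φ (t • fun a => τ.symm (z a)))
    (F' := fun t => sysF A B i0 j0 (Φ.map τ) (t • z))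
    (D := DD A B i0 j0 Φ (fun a => τ.symm (z a))) ?_ S ((hline _).eventually hS)
    (r := R) (by linarith) ?_ ?_ 1 (by simpa using hR1)
  · simpa using key
  · filter_upwards [(hline (fun a => τ.symm (z a))).eventually (hA.and (hBc Φ))] with t ht s
    refine hasDerivAt_sysF A B i0 j0 Φ _ ht.1 ?_ s
    rw [← Matrix.mulVec_smul]
    exact ht.2
  · intro t ht s
    rw [map_DD A B i0 j0 Φ _ hτ s]
    have h1 : (fun a => τ (τ.symm (z a))) = z := by
      funext a; simp
    rw [h1]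
    have h2 : t • z ∈ Metric.ball (0 : Fin A.g → ℂ) r := by
      rw [mem_ball_zero_iff, norm_smul]
      refine lt_of_le_of_lt ?_ hRr
      exact mul_le_mul_of_nonneg_right (by simpa using (mem_ball_zero_iff.1 ht).le)
        (norm_nonneg _)
    refine hasDerivAt_sysF A B i0 j0 (Φ.map τ) z (hball _ h2).1 ?_ s
    rw [← Matrix.mulVec_smul]
    exact (hball _ h2).2
  · intro s
    simp only [zero_smul]
    rcases s with (i | j) | ((b | b) | b)
    · exact (hτ _ (A.origin i0 i hi)).symm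
    · simp only [sysF, Matrix.mulVec_zero]
      exact (hτ _ (B.origin j0 j hj)).symm
    · simp [sysF]
    · simp [sysF]
    · simp [sysF]

end Pool.Agent.Helper38.AF
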